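import Pool.Agent.GPM.Main

set_option autoImplicit false

/-!
Q1 of MP_8bd56d_co for g-polymatroids whose vertices have at most one zero coordinate.
-/

namespace Pool.Agent.Results.MP_8bd56d_co.AtMostOneZero

open Pool.Agent.GPM

/-- If `Q(p, b)` is an integer g-polymatroid in `ℝⁿ` with `0 ∈ Q`, all vertices in
`{0, 1, -1}ⁿ`, and every vertex has at most one zero coordinate, then `Q` has a vertex
`v` with `-v ∈ Q`. -/
theorem result (n : ℕ) (p b : Finset (Fin n) → ℤ) (h : Paired p b)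
    (h0 : (0 : Fin n → ℝ) ∈ Q p b)
    (hv : ∀ v ∈ (Q p b).extremePoints ℝ, ∀ i, v i = 0 ∨ v i = 1 ∨ v i = -1)
    (h1 : ∀ v ∈ (Q p b).extremePoints ℝ, {i | v i = 0}.ncard ≤ 1) :
    ∃ v ∈ (Q p b).extremePoints ℝ, -v ∈ Q p b :=
  main_one h h0 hv h1

end Pool.Agent.Results.MP_8bd56d_co.AtMostOneZero
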