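import Pool.Agent.GPM.Main

set_option autoImplicit false

/-!
Q1 of MP_8bd56d_co for g-polymatroids whose vertices all have the same number of zero
coordinates.
-/

namespace Pool.Agent.Results.MP_8bd56d_co.ConstantZeros

open Pool.Agent.GPM

/-- If `Q(p, b)` is an integer g-polymatroid in `ℝⁿ` with `0 ∈ Q`, all vertices in
`{0, 1, -1}ⁿ`, and all vertices have the same number of zero coordinates, then `Q` has a vertex
`v` such that `-v` is also a vertex. -/
theorem result (n : ℕ) (p b : Finset (Fin n) → ℤ) (h : Paired p b)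
    (h0 : (0 : Fin n → ℝ) ∈ Q p b)
    (hv : ∀ v ∈ (Q p b).extremePoints ℝ, ∀ i, v i = 0 ∨ v i = 1 ∨ v i = -1)
    (k : ℕ) (hk : ∀ v ∈ (Q p b).extremePoints ℝ, {i | v i = 0}.ncard = k) :
    ∃ v ∈ (Q p b).extremePoints ℝ, -v ∈ (Q p b).extremePoints ℝ :=
  main_const h h0 hv k hk

end Pool.Agent.Results.MP_8bd56d_co.ConstantZeros
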